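import Pool.Agent.Helper20.EQ.St1

/-!
# Project EQ (MP_cb927e_an), module MX0: the maximal theorem on the line
-/

set_option autoImplicit false

open MeasureTheory Set Filter Topology
open scoped ENNReal

namespace Pool.Agent.Helper33.EQ

open Pool.Agent.Helper20.RG Pool.Agent.Helper20.EQ

/-- average over the interval of length `h` around `x` -/
noncomputable def AvR (f : ℝ → ℝ≥0∞) (h x : ℝ) : ℝ≥0∞ :=
  ∫⁻ t in Icc (-(1 / 2) : ℝ) (1 / 2), f (x - h * t)

/-- maximal function of the lengths `2^w l` -/
noncomputable def MxR (f : ℝ → ℝ≥0∞) (l : ℝ) (V : ℕ) (x : ℝ) : ℝ≥0∞ :=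
  (Finset.range (V + 1)).sup fun w => AvR f ((2 : ℝ) ^ w * l) x

theorem AvR_scale (f : ℝ → ℝ≥0∞) (hf : Measurable f) {h : ℝ} (hh : 0 < h) (x : ℝ) :
    AvR f h x = ENNReal.ofReal (h⁻¹) * ∫⁻ z in Metric.closedBall x (h / 2), f z := by
  set F : ℝ → ℝ≥0∞ := (Metric.closedBall x (h / 2)).indicator f with hF
  have hFm : Measurable F := hf.indicator Metric.isClosed_closedBall.measurableSet
  have h1 : AvR f h x = ∫⁻ w : ℝ, F (x - h • w) := by
    unfold AvR
    rw [← lintegral_indicator measurableSet_Icc]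
    refine lintegral_congr fun w => ?_
    have h2 : w ∈ Icc (-(1 / 2) : ℝ) (1 / 2) ↔ x - h • w ∈ Metric.closedBall x (h / 2) := by
      rw [Metric.mem_closedBall, dist_eq_norm, sub_sub_cancel_left, norm_neg, norm_smul,
        Real.norm_of_nonneg hh.le, Real.norm_eq_abs, mem_Icc, ← abs_le]
      constructor
      · intro h3
        nlinarith
      · intro h3
        by_contra h4
        push Not at h4
        nlinarith
    by_cases hw : w ∈ Icc (-(1 / 2) : ℝ) (1 / 2)
    · rw [indicator_of_mem hw, hF, indicator_of_mem (h2.1 hw), smul_eq_mul]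
    · rw [indicator_of_notMem hw, hF, indicator_of_notMem (fun h => hw (h2.2 h))]
  have h3 : ∫⁻ w : ℝ, F (x - h • w) = ∫⁻ v : ℝ, F (x - v) ∂(Measure.map (h • ·) volume) := by
    have hm : Measurable (fun v : ℝ => F (x - v)) :=
      hFm.comp (measurable_const.sub measurable_id)
    rw [lintegral_map hm (measurable_const_smul h)]
  rw [h1, h3, Measure.map_addHaar_smul volume hh.ne', Module.finrank_self,
    lintegral_smul_measure, lintegral_sub_left_eq_self, smul_eq_mul, hF,
    lintegral_indicator Metric.isClosed_closedBall.measurableSet, pow_one,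
    abs_of_nonneg (by positivity)]

theorem AvR_meas (f : ℝ → ℝ≥0∞) (hf : Measurable f) (h : ℝ) : Measurable (AvR f h) := by
  unfold AvR
  have h : Measurable (fun q : ℝ × ℝ => f (q.1 - h * q.2)) := by
    apply hf.comp
    fun_prop
  exact h.lintegral_prod_right'

theorem MxR_meas (f : ℝ → ℝ≥0∞) (hf : Measurable f) (l : ℝ) (V : ℕ) : Measurable (MxR f l V) := by
  unfold MxR
  have : (fun x => (Finset.range (V + 1)).sup fun w => AvR f ((2 : ℝ) ^ w * l) x) =
      (Finset.range (V + 1)).sup fun w => AvR f ((2 : ℝ) ^ w * l) := by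
    ext x
    rw [Finset.sup_apply]
  rw [this]
  refine Finset.sup_induction (p := fun g : ℝ → ℝ≥0∞ => Measurable g) measurable_const
    (fun a ha b hb => Measurable.sup ha hb) fun w _ => AvR_meas f hf _

/-- weak type -/
theorem MxR_weak (f : ℝ → ℝ≥0∞) (hf : Measurable f) {l : ℝ} (hl : 0 < l) (V : ℕ) {lam : ℝ}
    (hlam : 0 < lam) :
    volume {x | ENNReal.ofReal lam < MxR f l V x} ≤ ENNReal.ofReal (5 / lam) * ∫⁻ x, f x := by
  set I : ℝ≥0∞ := ∫⁻ x, f x with hI
  set A : Set ℝ := {x | ENNReal.ofReal lam < MxR f l V x} with hA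
  have hch : ∀ x : ℝ, ∃ k : ℕ, k ≤ V ∧ (x ∈ A → ENNReal.ofReal lam <
      ENNReal.ofReal (((2 : ℝ) ^ k * l)⁻¹) *
        ∫⁻ z in Metric.closedBall x ((2 : ℝ) ^ k * l / 2), f z) := by
    intro x
    by_cases hx : x ∈ A
    · have hx' : ENNReal.ofReal lam < (Finset.range (V + 1)).sup fun w =>
        AvR f ((2 : ℝ) ^ w * l) x := hx
      rw [Finset.lt_sup_iff] at hx'
      obtain ⟨k, hk1, hk⟩ := hx'
      refine ⟨k, Nat.lt_succ_iff.mp (Finset.mem_range.mp hk1), fun _ => ?_⟩
      rw [← AvR_scale f hf (by positivity) x]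
      exact hk
    · exact ⟨0, Nat.zero_le _, fun h => absurd h hx⟩
  choose k hkV hk using hch
  set r : ℝ → ℝ := fun x => (2 : ℝ) ^ (k x) * l / 2 with hr
  have hr0 : ∀ x, 0 < r x := fun x => by rw [hr]; positivity
  set J : ℝ → ℝ≥0∞ := fun x => ∫⁻ z in Metric.closedBall x (r x), f z with hJ
  have hbas : ∀ x ∈ A, ENNReal.ofReal (2 * r x) ≤ ENNReal.ofReal (1 / lam) * J x := by
    intro x hx
    have h1 := (hk x hx).le
    have hc0 : 0 < (2 : ℝ) ^ (k x) * l := by positivity
    have h2 : ENNReal.ofReal (2 * r x) =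
        ENNReal.ofReal (1 / lam * ((2 : ℝ) ^ (k x) * l)) * ENNReal.ofReal lam := by
      rw [← ENNReal.ofReal_mul (by positivity)]
      congr 1
      rw [hr]
      field_simp
    rw [h2]
    calc ENNReal.ofReal (1 / lam * ((2 : ℝ) ^ (k x) * l)) * ENNReal.ofReal lam
        ≤ ENNReal.ofReal (1 / lam * ((2 : ℝ) ^ (k x) * l)) *
          (ENNReal.ofReal (((2 : ℝ) ^ (k x) * l)⁻¹) * J x) := by gcongr
      _ = (ENNReal.ofReal (1 / lam) * (ENNReal.ofReal ((2 : ℝ) ^ (k x) * l) *
          ENNReal.ofReal (((2 : ℝ) ^ (k x) * l)⁻¹))) * J x := by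
          rw [ENNReal.ofReal_mul (by positivity)]
          ring
      _ = ENNReal.ofReal (1 / lam) * J x := by
          rw [← ENNReal.ofReal_mul hc0.le, mul_inv_cancel₀ hc0.ne', ENNReal.ofReal_one, mul_one]
  have hbd : ∀ x ∈ A, r x ≤ (2 : ℝ) ^ V * l / 2 := by
    intro x _
    have : (2 : ℝ) ^ (k x) ≤ (2 : ℝ) ^ V := pow_le_pow_right₀ (by norm_num) (hkV x)
    rw [hr]
    simp only
    gcongr
  obtain ⟨u, huA, hdis, hcov⟩ := Vitali.exists_disjoint_subfamily_covering_enlargement_closedBall
    A (fun x : ℝ => x) r _ hbd 5 (by norm_num)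
  have hucount : u.Countable := by
    refine hdis.countable_of_nonempty_interior fun x _ => ?_
    refine ⟨x, ?_⟩
    exact Metric.ball_subset_interior_closedBall (Metric.mem_ball_self (hr0 x))
  have hsub : A ⊆ ⋃ b ∈ u, Metric.closedBall b (5 * r b) := by
    intro x hx
    obtain ⟨b, hb, hxb⟩ := hcov x hx
    exact mem_biUnion hb (hxb (Metric.mem_closedBall_self (hr0 x).le))
  have hball : ∀ b ∈ u, volume (Metric.closedBall b (5 * r b)) ≤
      ENNReal.ofReal (5 / lam) * J b := by
    intro b hb
    rw [Real.volume_closedBall]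
    calc ENNReal.ofReal (2 * (5 * r b))
        = ENNReal.ofReal 5 * ENNReal.ofReal (2 * r b) := by
          rw [← ENNReal.ofReal_mul (by norm_num)]
          congr 1
          ring
      _ ≤ ENNReal.ofReal 5 * (ENNReal.ofReal (1 / lam) * J b) := by
          gcongr
          exact hbas b (huA hb)
      _ = ENNReal.ofReal (5 / lam) * J b := by
          rw [← mul_assoc, ← ENNReal.ofReal_mul (by positivity)]
          congr 2
          ring
  set μ' : Measure ℝ := volume.withDensity f with hμ'
  have hJμ : ∀ b, J b = μ' (Metric.closedBall b (r b)) := fun b =>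
    (withDensity_apply f Metric.isClosed_closedBall.measurableSet).symm
  have hsum : ∑' b : u, J b ≤ I := by
    calc ∑' b : u, J b = ∑' b : u, μ' (Metric.closedBall (b : ℝ) (r b)) :=
          tsum_congr fun b => hJμ b
      _ = μ' (⋃ b ∈ u, Metric.closedBall b (r b)) :=
          (measure_biUnion hucount hdis
            (fun b _ => Metric.isClosed_closedBall.measurableSet)).symm
      _ ≤ μ' univ := measure_mono (subset_univ _)
      _ = I := by rw [hμ', withDensity_apply f MeasurableSet.univ, Measure.restrict_univ]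
  calc volume A ≤ volume (⋃ b ∈ u, Metric.closedBall b (5 * r b)) := measure_mono hsub
    _ ≤ ∑' b : u, volume (Metric.closedBall (b : ℝ) (5 * r b)) :=
        measure_biUnion_le volume hucount _
    _ ≤ ∑' b : u, ENNReal.ofReal (5 / lam) * J b :=
        ENNReal.tsum_le_tsum fun b => hball b b.2
    _ = ENNReal.ofReal (5 / lam) * ∑' b : u, J b := ENNReal.tsum_mul_left
    _ ≤ ENNReal.ofReal (5 / lam) * I := by gcongr

/-- square as an integral, finite case -/
theorem sq_le_lint_fin (r : ℝ) (hr : 0 ≤ r) :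
    ENNReal.ofReal r ^ 2 ≤ ∫⁻ lam in Ioi (0 : ℝ), ENNReal.ofReal (2 * lam) *
      (if ENNReal.ofReal lam < ENNReal.ofReal r then 1 else 0) := by
  have h1 : ∫ lam in (0 : ℝ)..r, 2 * lam = r ^ 2 := by
    rw [intervalIntegral.integral_const_mul, integral_id]
    ring
  have h2 : ∫⁻ lam in Ioo (0 : ℝ) r, ENNReal.ofReal (2 * lam) = ENNReal.ofReal (r ^ 2) := by
    rw [← h1, intervalIntegral.integral_of_le hr, ofReal_integral_eq_lintegral_ofReal]
    · exact setLIntegral_congr Ioo_ae_eq_Ioc
    · exact (Continuous.integrableOn_Icc (by fun_prop)).mono_set Ioc_subset_Icc_self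
    · rw [Filter.EventuallyLE, ae_restrict_iff' measurableSet_Ioc]
      refine Filter.Eventually.of_forall fun x hx => ?_
      have := hx.1
      show (0 : ℝ) ≤ 2 * x
      linarith
  rw [← ENNReal.ofReal_pow hr, ← h2, ← lintegral_indicator measurableSet_Ioo,
    ← lintegral_indicator measurableSet_Ioi]
  refine lintegral_mono fun x => ?_
  by_cases hx : x ∈ Ioo (0 : ℝ) r
  · rw [indicator_of_mem hx, indicator_of_mem (show x ∈ Ioi (0 : ℝ) from hx.1), if_pos, mul_one]
    exact (ENNReal.ofReal_lt_ofReal_iff (lt_trans hx.1 hx.2)).mpr hx.2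
  · rw [indicator_of_notMem hx]
    exact zero_le

theorem sq_le_lint (a : ℝ≥0∞) :
    a ^ 2 ≤ ∫⁻ lam in Ioi (0 : ℝ), ENNReal.ofReal (2 * lam) *
      (if ENNReal.ofReal lam < a then 1 else 0) := by
  by_cases ha : a = ∞
  · subst ha
    have h : ∀ r : ℝ, 0 ≤ r → ENNReal.ofReal r ^ 2 ≤ ∫⁻ lam in Ioi (0 : ℝ),
        ENNReal.ofReal (2 * lam) * (if ENNReal.ofReal lam < ∞ then 1 else 0) := by
      intro r hr
      refine (sq_le_lint_fin r hr).trans (lintegral_mono fun lam => ?_)
      refine mul_le_mul' le_rfl ?_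
      rw [if_pos ENNReal.ofReal_lt_top]
      split_ifs <;> simp
    have h2 : (∫⁻ lam in Ioi (0 : ℝ),
        ENNReal.ofReal (2 * lam) * (if ENNReal.ofReal lam < ∞ then 1 else 0)) = ∞ := by
      refine ENNReal.eq_top_of_forall_nnreal_le fun r => ?_
      refine le_trans ?_ (h (r + 1) (by positivity))
      rw [← ENNReal.ofReal_pow (by positivity), ← ENNReal.ofReal_coe_nnreal]
      apply ENNReal.ofReal_le_ofReal
      nlinarith [r.coe_nonneg]
    rw [h2]
    exact le_top
  · have h := sq_le_lint_fin a.toReal ENNReal.toReal_nonneg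
    rw [ENNReal.ofReal_toReal ha] at h
    exact h

theorem lint_half_le (b : ℝ≥0∞) :
    ∫⁻ lam in Ioi (0 : ℝ), (if ENNReal.ofReal (lam / 2) < b then (1 : ℝ≥0∞) else 0) ≤ 2 * b := by
  by_cases hb : b = ∞
  · subst hb
    rw [ENNReal.mul_top (by norm_num)]
    exact le_top
  · have h1 : ∀ lam : ℝ, (Ioi (0 : ℝ)).indicator
        (fun lam => (if ENNReal.ofReal (lam / 2) < b then (1 : ℝ≥0∞) else 0)) lam ≤
        (Ioo (0 : ℝ) (2 * b.toReal)).indicator (fun _ => (1 : ℝ≥0∞)) lam := by
      intro lam
      by_cases h : lam ∈ Ioi (0 : ℝ)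
      · rw [indicator_of_mem h]
        by_cases h' : ENNReal.ofReal (lam / 2) < b
        · rw [if_pos h', indicator_of_mem]
          refine ⟨h, ?_⟩
          rw [← ENNReal.ofReal_toReal hb] at h'
          have := (ENNReal.ofReal_lt_ofReal_iff_of_nonneg (by
            have : (0 : ℝ) < lam := h
            positivity)).mp h'
          linarith
        · rw [if_neg h']
          exact zero_le
      · rw [indicator_of_notMem h]
        exact zero_le
    rw [← lintegral_indicator measurableSet_Ioi]
    refine (lintegral_mono h1).trans ?_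
    rw [lintegral_indicator measurableSet_Ioo, setLIntegral_const, one_mul, Real.volume_Ioo,
      sub_zero, ENNReal.ofReal_mul (by norm_num), ENNReal.ofReal_toReal hb]
    norm_num

theorem MxR_strong (f : ℝ → ℝ≥0∞) (hf : Measurable f) {l : ℝ} (hl : 0 < l) (V : ℕ) :
    ∫⁻ x, MxR f l V x ^ 2 ≤ ENNReal.ofReal 40 * ∫⁻ x, f x ^ 2 := by
  have hM := MxR_meas f hf l V
  -- the distribution function
  have hdist : ∀ lam : ℝ, 0 < lam → volume {x | ENNReal.ofReal lam < MxR f l V x} ≤
      ENNReal.ofReal (10 / lam) * ∫⁻ x, f x *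
        (if ENNReal.ofReal (lam / 2) < f x then 1 else 0) := by
    intro lam hlam
    set S : Set ℝ := {x | ENNReal.ofReal (lam / 2) < f x} with hS
    have hSm : MeasurableSet S := measurableSet_lt measurable_const hf
    have hpt : ∀ z : ℝ, f z ≤ ENNReal.ofReal (lam / 2) + S.indicator f z := by
      intro z
      by_cases hz : z ∈ S
      · rw [indicator_of_mem hz]
        exact le_add_self
      · rw [indicator_of_notMem hz, add_zero]
        exact not_lt.mp hz
    have hAv : ∀ h x : ℝ, AvR f h x ≤ ENNReal.ofReal (lam / 2) + AvR (S.indicator f) h x := by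
      intro h x
      unfold AvR
      calc ∫⁻ t in Icc (-(1 / 2) : ℝ) (1 / 2), f (x - h * t)
          ≤ ∫⁻ t in Icc (-(1 / 2) : ℝ) (1 / 2),
              (ENNReal.ofReal (lam / 2) + S.indicator f (x - h * t)) :=
            lintegral_mono (fun t => hpt _)
        _ = (∫⁻ _t in Icc (-(1 / 2) : ℝ) (1 / 2), ENNReal.ofReal (lam / 2)) +
              ∫⁻ t in Icc (-(1 / 2) : ℝ) (1 / 2), S.indicator f (x - h * t) :=
            lintegral_add_left measurable_const _
        _ = _ := by
            rw [setLIntegral_const, Real.volume_Icc]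
            norm_num
    have hMx : ∀ x : ℝ, MxR f l V x ≤ ENNReal.ofReal (lam / 2) + MxR (S.indicator f) l V x := by
      intro x
      refine Finset.sup_le fun w hw => (hAv _ _).trans ?_
      refine add_le_add le_rfl ?_
      exact Finset.le_sup (f := fun w => AvR (S.indicator f) ((2 : ℝ) ^ w * l) x) hw
    have hsub : {x | ENNReal.ofReal lam < MxR f l V x} ⊆
        {x | ENNReal.ofReal (lam / 2) < MxR (S.indicator f) l V x} := by
      intro x hx
      by_contra hcon
      have hcon' : MxR (S.indicator f) l V x ≤ ENNReal.ofReal (lam / 2) := not_lt.mp hcon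
      have h1 : MxR f l V x ≤ ENNReal.ofReal (lam / 2) + ENNReal.ofReal (lam / 2) :=
        (hMx x).trans (add_le_add le_rfl hcon')
      rw [← ENNReal.ofReal_add (by positivity) (by positivity), add_halves] at h1
      exact absurd hx (not_lt.mpr h1)
    refine (measure_mono hsub).trans ((MxR_weak _ (hf.indicator hSm) hl V
      (by positivity)).trans (le_of_eq ?_))
    congr 1
    · congr 1
      field_simp
      norm_num
    · refine lintegral_congr fun x => ?_
      by_cases hx : x ∈ S
      · have hx' : ENNReal.ofReal (lam / 2) < f x := hx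
        rw [indicator_of_mem hx, if_pos hx', mul_one]
      · have hx' : ¬ ENNReal.ofReal (lam / 2) < f x := hx
        rw [indicator_of_notMem hx, if_neg hx', mul_zero]
  have hmeas1 : Measurable fun q : ℝ × ℝ => ENNReal.ofReal (2 * q.2) *
      (if ENNReal.ofReal q.2 < MxR f l V q.1 then (1 : ℝ≥0∞) else 0) := by
    refine Measurable.mul (by fun_prop) (Measurable.ite ?_ measurable_const measurable_const)
    exact measurableSet_lt (by fun_prop) (hM.comp measurable_fst)
  have hmeas2 : Measurable fun q : ℝ × ℝ => ENNReal.ofReal 20 * (f q.2 *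
      (if ENNReal.ofReal (q.1 / 2) < f q.2 then (1 : ℝ≥0∞) else 0)) := by
    refine Measurable.const_mul (Measurable.mul (hf.comp measurable_snd)
      (Measurable.ite ?_ measurable_const measurable_const)) _
    exact measurableSet_lt (by fun_prop) (hf.comp measurable_snd)
  calc ∫⁻ x, MxR f l V x ^ 2
      ≤ ∫⁻ x, ∫⁻ lam in Ioi (0 : ℝ), ENNReal.ofReal (2 * lam) *
          (if ENNReal.ofReal lam < MxR f l V x then 1 else 0) :=
        lintegral_mono fun x => sq_le_lint _
    _ = ∫⁻ lam in Ioi (0 : ℝ), ∫⁻ x, ENNReal.ofReal (2 * lam) *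
          (if ENNReal.ofReal lam < MxR f l V x then 1 else 0) :=
        lintegral_lintegral_swap hmeas1.aemeasurable
    _ ≤ ∫⁻ lam in Ioi (0 : ℝ), ∫⁻ x, ENNReal.ofReal 20 * (f x *
          (if ENNReal.ofReal (lam / 2) < f x then 1 else 0)) := by
        refine setLIntegral_mono' measurableSet_Ioi fun lam hlam => ?_
        have hl0 : (0 : ℝ) < lam := hlam
        rw [lintegral_const_mul' _ _ ENNReal.ofReal_ne_top,
          lintegral_const_mul' _ _ ENNReal.ofReal_ne_top]
        have e1 : ∫⁻ x, (if ENNReal.ofReal lam < MxR f l V x then (1 : ℝ≥0∞) else 0) =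
            volume {x | ENNReal.ofReal lam < MxR f l V x} := by
          rw [← lintegral_indicator_one (measurableSet_lt measurable_const hM)]
          refine lintegral_congr fun x => ?_
          by_cases hx : ENNReal.ofReal lam < MxR f l V x
          · rw [if_pos hx, indicator_of_mem (by exact hx)]
            rfl
          · rw [if_neg hx, indicator_of_notMem (by exact hx)]
        rw [e1]
        refine (mul_le_mul' le_rfl (hdist lam hl0)).trans (le_of_eq ?_)
        rw [← mul_assoc, ← ENNReal.ofReal_mul (by positivity)]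
        congr 2
        field_simp
        norm_num
    _ = ∫⁻ x, ∫⁻ lam in Ioi (0 : ℝ), ENNReal.ofReal 20 * (f x *
          (if ENNReal.ofReal (lam / 2) < f x then 1 else 0)) :=
        lintegral_lintegral_swap hmeas2.aemeasurable
    _ ≤ ∫⁻ x, ENNReal.ofReal 40 * f x ^ 2 := by
        refine lintegral_mono fun x => ?_
        have hm3 : Measurable fun lam : ℝ =>
            (if ENNReal.ofReal (lam / 2) < f x then (1 : ℝ≥0∞) else 0) := by
          refine Measurable.ite ?_ measurable_const measurable_const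
          exact measurableSet_lt (by fun_prop) measurable_const
        rw [lintegral_const_mul' _ _ ENNReal.ofReal_ne_top, lintegral_const_mul _ hm3]
        refine (mul_le_mul' le_rfl (mul_le_mul' le_rfl (lint_half_le (f x)))).trans (le_of_eq ?_)
        rw [show (40 : ℝ) = 20 * 2 by norm_num, ENNReal.ofReal_mul (by norm_num)]
        norm_num
        ring
    _ = ENNReal.ofReal 40 * ∫⁻ x, f x ^ 2 := lintegral_const_mul' _ _ ENNReal.ofReal_ne_top

theorem hMX0 : StMX0 :=
  ⟨40, by norm_num, fun f _ V hf hl => MxR_strong f hf hl V⟩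

end Pool.Agent.Helper33.EQ
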