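import Pool.Agent.Helper20.EQ.St1

/-!
# Project EQ (MP_cb927e_an), module MX1: transference to the plane
-/

set_option autoImplicit false

open MeasureTheory Set Filter Topology
open scoped ENNReal

namespace Pool.Agent.Helper33.EQ

open Pool.Agent.Helper20.RG Pool.Agent.Helper20.EQ
open Pool.Agent.Helper68.LM (Pl BB Bd Av HL ft fm DQ)

/-- line averages in the plane -/
noncomputable def LA (f : Pl → ℝ≥0∞) (e : Pl) (h : ℝ) (x : Pl) : ℝ≥0∞ :=
  ∫⁻ t in Icc (-(1 / 2) : ℝ) (1 / 2), f (x - (h * t) • e)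

/-- their maximal function -/
noncomputable def LM (f : Pl → ℝ≥0∞) (e : Pl) (l : ℝ) (V : ℕ) (x : Pl) : ℝ≥0∞ :=
  (Finset.range (V + 1)).sup fun w => LA f e ((2 : ℝ) ^ w * l) x

theorem LA_meas (f : Pl → ℝ≥0∞) (hf : Measurable f) (e : Pl) (h : ℝ) : Measurable (LA f e h) := by
  unfold LA
  have h : Measurable (fun q : Pl × ℝ => f (q.1 - (h * q.2) • e)) := by
    apply hf.comp
    fun_prop
  exact h.lintegral_prod_right'

theorem LM_meas (f : Pl → ℝ≥0∞) (hf : Measurable f) (e : Pl) (l : ℝ) (V : ℕ) :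
    Measurable (LM f e l V) := by
  unfold LM
  have : (fun x => (Finset.range (V + 1)).sup fun w => LA f e ((2 : ℝ) ^ w * l) x) =
      (Finset.range (V + 1)).sup fun w => LA f e ((2 : ℝ) ^ w * l) := by
    ext x
    rw [Finset.sup_apply]
  rw [this]
  refine Finset.sup_induction (p := fun g : Pl → ℝ≥0∞ => Measurable g) measurable_const
    (fun a ha b hb => Measurable.sup ha hb) fun w _ => LA_meas f hf e _

theorem Av_le_LA (h : Pl → ℝ) (hh : Measurable h) (e : Pl) (r : ℝ) (x : Pl) :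
    ‖Av (sge e) r h x‖ₑ ≤ LA (fun x => ‖h x‖ₑ) e r x := by
  unfold Av LA sge
  refine (enorm_integral_le_lintegral_enorm _).trans (le_of_eq ?_)
  have hm : Measurable fun y : Pl => ‖h (x - r • y)‖ₑ := by
    apply Measurable.enorm
    apply hh.comp
    fun_prop
  rw [lintegral_map hm (by fun_prop)]
  refine lintegral_congr fun t => ?_
  rw [smul_smul]

theorem hMX1 (hMX0 : StMX0) : StMX1 := by
  obtain ⟨C, hC, H⟩ := hMX0
  refine ⟨2 * C, by positivity, fun e h l V hh hl => ?_⟩
  set f : Pl → ℝ≥0∞ := fun x => ‖h x‖ₑ with hfdef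
  have hf : Measurable f := hh.1.enorm
  have hG := LM_meas f hf e l V
  have h1 : ∫⁻ x, ((Finset.range (V + 1)).sup fun w => ‖Av (sge e) ((2 : ℝ) ^ w * l) h x‖ₑ) ^ 2 ≤
      ∫⁻ x, LM f e l V x ^ 2 := by
    refine lintegral_mono fun x => ?_
    refine pow_le_pow_left' ?_ 2
    refine Finset.sup_le fun w hw => (Av_le_LA h hh.1 e _ x).trans ?_
    exact Finset.le_sup (f := fun w => LA f e ((2 : ℝ) ^ w * l) x) hw
  refine h1.trans ?_
  set R : ℝ := (2 : ℝ) ^ V * l with hR
  have hR0 : 0 < R := by positivity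
  -- one line
  have hline : ∀ x : Pl, ∫⁻ r in Icc (-R) R, LM f e l V (x + r • e) ^ 2 ≤
      ENNReal.ofReal C * ∫⁻ r in Icc (-(2 * R)) (2 * R), f (x + r • e) ^ 2 := by
    intro x
    set fx : ℝ → ℝ≥0∞ := (Icc (-(2 * R)) (2 * R)).indicator (fun r => f (x + r • e)) with hfx
    have hfxm : Measurable fx := by
      refine Measurable.indicator ?_ measurableSet_Icc
      exact hf.comp (by fun_prop)
    have h2 := H fx l V hfxm hl
    have h3 : ∫⁻ r, fx r ^ 2 = ∫⁻ r in Icc (-(2 * R)) (2 * R), f (x + r • e) ^ 2 := by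
      rw [← lintegral_indicator measurableSet_Icc]
      refine lintegral_congr fun r => ?_
      by_cases hr : r ∈ Icc (-(2 * R)) (2 * R)
      · rw [hfx, indicator_of_mem hr, indicator_of_mem hr]
      · rw [hfx, indicator_of_notMem hr, indicator_of_notMem hr]
        simp
    rw [h3] at h2
    refine le_trans ?_ h2
    rw [← lintegral_indicator measurableSet_Icc]
    refine lintegral_mono fun r => ?_
    by_cases hr : r ∈ Icc (-R) R
    · rw [indicator_of_mem hr]
      refine pow_le_pow_left' ?_ 2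
      refine Finset.sup_mono_fun fun w hw => le_of_eq ?_
      have hwV : w ≤ V := Nat.lt_succ_iff.mp (Finset.mem_range.mp hw)
      unfold LA
      refine setLIntegral_congr_fun measurableSet_Icc fun t ht => ?_
      have h4 : (2 : ℝ) ^ w * l ≤ R := by
        rw [hR]
        have : (2 : ℝ) ^ w ≤ (2 : ℝ) ^ V := pow_le_pow_right₀ (by norm_num) hwV
        gcongr
      have h5 : 0 < (2 : ℝ) ^ w * l := by positivity
      have h6 : |(2 : ℝ) ^ w * l * t| ≤ R := by
        rw [abs_mul, abs_of_pos h5]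
        have h7 : |t| ≤ 1 := by
          rw [abs_le]
          constructor <;> linarith [ht.1, ht.2]
        calc (2 : ℝ) ^ w * l * |t| ≤ (2 : ℝ) ^ w * l * 1 :=
              mul_le_mul_of_nonneg_left h7 h5.le
          _ ≤ R := by linarith
      have h8 : r - (2 : ℝ) ^ w * l * t ∈ Icc (-(2 * R)) (2 * R) := by
        rw [abs_le] at h6
        constructor <;> linarith [hr.1, hr.2, h6.1, h6.2]
      simp only [hfx]
      rw [indicator_of_mem h8]
      congr 1
      rw [sub_smul]
      abel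
    · rw [indicator_of_notMem hr]
      exact zero_le
  -- average over translations
  have hmG : Measurable fun q : ℝ × Pl => LM f e l V (q.2 + q.1 • e) ^ 2 :=
    (hG.comp (by fun_prop)).pow_const 2
  have hmf : Measurable fun q : Pl × ℝ => f (q.1 + q.2 • e) ^ 2 :=
    (hf.comp (by fun_prop)).pow_const 2
  have h9 : ENNReal.ofReal (2 * R) * ∫⁻ x, LM f e l V x ^ 2 ≤
      ENNReal.ofReal (C * (4 * R)) * ∫⁻ x, f x ^ 2 := by
    calc ENNReal.ofReal (2 * R) * ∫⁻ x, LM f e l V x ^ 2
        = ∫⁻ _r in Icc (-R) R, ∫⁻ x, LM f e l V x ^ 2 := by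
          rw [setLIntegral_const, Real.volume_Icc, mul_comm]
          congr 2
          ring
      _ = ∫⁻ r in Icc (-R) R, ∫⁻ x, LM f e l V (x + r • e) ^ 2 := by
          refine lintegral_congr fun r => ?_
          exact (lintegral_add_right_eq_self (fun x => LM f e l V x ^ 2) (r • e)).symm
      _ = ∫⁻ x, ∫⁻ r in Icc (-R) R, LM f e l V (x + r • e) ^ 2 :=
          lintegral_lintegral_swap hmG.aemeasurable
      _ ≤ ∫⁻ x, ENNReal.ofReal C * ∫⁻ r in Icc (-(2 * R)) (2 * R), f (x + r • e) ^ 2 :=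
          lintegral_mono hline
      _ = ENNReal.ofReal C * ∫⁻ x, ∫⁻ r in Icc (-(2 * R)) (2 * R), f (x + r • e) ^ 2 :=
          lintegral_const_mul' _ _ ENNReal.ofReal_ne_top
      _ = ENNReal.ofReal C * ∫⁻ r in Icc (-(2 * R)) (2 * R), ∫⁻ x, f (x + r • e) ^ 2 := by
          rw [lintegral_lintegral_swap hmf.aemeasurable]
      _ = ENNReal.ofReal C * ∫⁻ _r in Icc (-(2 * R)) (2 * R), ∫⁻ x, f x ^ 2 := by
          congr 1
          refine lintegral_congr fun r => ?_
          exact lintegral_add_right_eq_self (fun x => f x ^ 2) (r • e)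
      _ = ENNReal.ofReal (C * (4 * R)) * ∫⁻ x, f x ^ 2 := by
          rw [setLIntegral_const, Real.volume_Icc, ENNReal.ofReal_mul hC.le,
            mul_comm (∫⁻ x, f x ^ 2), ← mul_assoc]
          congr 3
          ring
  calc ∫⁻ x, LM f e l V x ^ 2
      = ENNReal.ofReal ((2 * R)⁻¹) * (ENNReal.ofReal (2 * R) * ∫⁻ x, LM f e l V x ^ 2) := by
        rw [← mul_assoc, ← ENNReal.ofReal_mul (by positivity), inv_mul_cancel₀ (by positivity),
          ENNReal.ofReal_one, one_mul]
    _ ≤ ENNReal.ofReal ((2 * R)⁻¹) * (ENNReal.ofReal (C * (4 * R)) * ∫⁻ x, f x ^ 2) := by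
        gcongr
    _ = ENNReal.ofReal (2 * C) * ∫⁻ x, f x ^ 2 := by
        rw [← mul_assoc, ← ENNReal.ofReal_mul (by positivity)]
        congr 2
        field_simp
        ring

end Pool.Agent.Helper33.EQ
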