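import Pool.Agent.Helper33.EQ.Com

/-!
# Project EQ (MP_cb927e_an), module PPW: product formula in a window
-/

set_option autoImplicit false

open MeasureTheory Set Filter Topology
open scoped ENNReal

namespace Pool.Agent.Helper33.EQ

open Pool.Agent.Helper20.RG Pool.Agent.Helper20.EQ
open Pool.Agent.Helper68.LM (Pl BB Bd Av HL ft fm DQ)

/-- intervals of a grid -/
theorem grid_mem {ρ : ℝ} (hρ : 0 < ρ) (t : ℝ) (n : ℤ) :
    t ∈ Ico ((n : ℝ) * ρ) (((n : ℝ) + 1) * ρ) ↔ ⌊t / ρ⌋ = n := by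
  rw [Int.floor_eq_iff, mem_Ico, le_div_iff₀ hρ, div_lt_iff₀ hρ]

/-- one square -/
theorem win_loc (hPT : StPT) (hRID : StRID) (hPAR : StPAR) {s s' α r L D₁ : ℝ}
    {Ea Eb Ra Rb R : Set Pl} (hs : |s| ≤ 1) (hs' : |s'| ≤ 1) (hα : 0 < α) (hαs : α ≤ |s - s'|)
    (hr : 0 < r) (hrL : 100 * r ≤ α * L) (hD : 0 ≤ D₁) (hEa : IsOpen Ea) (hEb : IsOpen Eb)
    (hA : ∀ y ∈ Ea, ∀ lam : ℝ, |lam| ≤ 10 * L → y + lam • E s ∈ Ra)
    (hB : ∀ y ∈ Eb, ∀ lam : ℝ, |lam| ≤ 10 * L → y + lam • E s' ∈ Rb) (hR : R ⊆ Ea ∩ Eb)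
    (hden : ∀ x ∈ R, volume (Rb ∩ Sq x r) ≤ ENNReal.ofReal (D₁ * r ^ 2)) (c : Pl) (Q : Set Pl)
    (hQ : Q ⊆ Sq c (L / 2)) :
    volume (R ∩ Q) ≤ ENNReal.ofReal (5 / 8 * D₁) * volume (Ra ∩ Sq c (5 * L)) := by
  have hα2 : |s - s'| ≤ 2 := by
    have h1 := abs_le.mp hs
    have h2 := abs_le.mp hs'
    rw [abs_le]
    constructor <;> linarith [h1.1, h1.2, h2.1, h2.2]
  set β := |s - s'| with hβ
  have hβ0 : 0 < β := lt_of_lt_of_le hα hαs
  have hne : s ≠ s' := by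
    rintro rfl
    rw [hβ, sub_self, abs_zero] at hβ0
    exact lt_irrefl _ hβ0
  have hL : 0 < L := by
    by_contra h
    push Not at h
    nlinarith
  have hrL2 : r ≤ L / 50 := by
    have : α * L ≤ 2 * L := mul_le_mul_of_nonneg_right (hαs.trans hα2) hL.le
    linarith
  set ρ : ℝ := r / 4 with hρ
  have hρ0 : 0 < ρ := by positivity
  set W : Set Pl := {y | |y 0 - c 0| < L} with hW
  have hWo : IsOpen W := isOpen_lt (continuous_abs.comp ((co_cont 0).sub continuous_const))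
    continuous_const
  have hQW : ∀ y ∈ Q, |y 0 - c 0| ≤ L / 2 ∧ |y 1 - c 1| ≤ L / 2 := fun y hy => hQ hy
  set Fa : Set ℝ := pr s '' (Ea ∩ W) ∩ Icc (pr s c - L) (pr s c + L) with hFa
  set Fb : Set ℝ := pr s' '' (Eb ∩ W) with hFb
  have hFam : MeasurableSet Fa := (pr_open hPT s (hEa.inter hWo)).measurableSet.inter measurableSet_Icc
  have hFbm : MeasurableSet Fb := (pr_open hPT s' (hEb.inter hWo)).measurableSet
  let I : ℤ → Set ℝ := fun n => Ico ((n : ℝ) * ρ) (((n : ℝ) + 1) * ρ)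
  have hIm : ∀ n, MeasurableSet (I n) := fun n => measurableSet_Ico
  -- A
  have hclA : ENNReal.ofReal (8 * L) * volume Fa ≤ volume (Ra ∩ Sq c (5 * L)) := by
    have h1 := hRID s c (5 * L) (4 * L) Fa hs (by positivity) (by linarith) hFam (by
      intro t ht
      have := ht.2
      rw [mem_Icc] at this ⊢
      constructor <;> linarith [this.1, this.2])
    rw [show 2 * (4 * L) = 8 * L by ring] at h1
    refine h1.trans (measure_mono ?_)
    rintro y ⟨hy1, ⟨y₀, ⟨hy₀E, hy₀W⟩, hy₀⟩, -⟩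
    refine ⟨?_, hy1⟩
    rw [pr_shift hPT hy₀.symm]
    refine hA y₀ hy₀E _ ?_
    have h2 : |y 0 - y₀ 0| ≤ |y 0 - c 0| + |y₀ 0 - c 0| := by
      have := abs_sub_le (y 0) (c 0) (y₀ 0)
      rwa [abs_sub_comm (c 0) (y₀ 0)] at this
    have h3 : |y₀ 0 - c 0| < L := hy₀W
    have h4 : |y 0 - c 0| ≤ 5 * L := hy1.1
    linarith
  -- B
  have hclB : ∀ n : ℤ, ∀ x ∈ R ∩ Q, pr s' x ∈ I n →
      volume (Fb ∩ I n) ≤ ENNReal.ofReal (D₁ * r) := by
    rintro n x ⟨hxR, hxQ⟩ hxI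
    have h1 := hRID s' x r (3 * r / 4) (Fb ∩ I n) hs' (by positivity) (by linarith)
      (hFbm.inter (hIm n)) (by
        rintro t ⟨-, ht⟩
        have h2 := hxI
        rw [mem_Ico] at h2 ht
        rw [mem_Icc]
        constructor <;> linarith [h2.1, h2.2, ht.1, ht.2])
    have h2 : volume {y | y ∈ Sq x r ∧ pr s' y ∈ Fb ∩ I n} ≤ ENNReal.ofReal (D₁ * r ^ 2) := by
      refine (measure_mono ?_).trans (hden x hxR)
      rintro y ⟨hy1, ⟨y₀, ⟨hy₀E, hy₀W⟩, hy₀⟩, -⟩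
      refine ⟨?_, hy1⟩
      rw [pr_shift hPT hy₀.symm]
      refine hB y₀ hy₀E _ ?_
      have h2 : |y 0 - y₀ 0| ≤ |y 0 - x 0| + |x 0 - c 0| + |y₀ 0 - c 0| := by
        have h5 := abs_sub_le (y 0) (x 0) (y₀ 0)
        have h6 := abs_sub_le (x 0) (c 0) (y₀ 0)
        rw [abs_sub_comm (c 0) (y₀ 0)] at h6
        linarith
      have h3 : |y₀ 0 - c 0| < L := hy₀W
      have h4 : |y 0 - x 0| ≤ r := hy1.1
      have h7 := (hQW x hxQ).1
      linarith
    calc volume (Fb ∩ I n) = ENNReal.ofReal (1 / (2 * (3 * r / 4))) *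
          (ENNReal.ofReal (2 * (3 * r / 4)) * volume (Fb ∩ I n)) := by
          rw [← mul_assoc, ← ENNReal.ofReal_mul (by positivity), one_div,
            inv_mul_cancel₀ (by positivity), ENNReal.ofReal_one, one_mul]
      _ ≤ ENNReal.ofReal (1 / (2 * (3 * r / 4))) * ENNReal.ofReal (D₁ * r ^ 2) := by
          gcongr
          exact h1.trans h2
      _ ≤ ENNReal.ofReal (D₁ * r) := by
          rw [← ENNReal.ofReal_mul (by positivity)]
          apply ENNReal.ofReal_le_ofReal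
          have : 1 / (2 * (3 * r / 4)) * (D₁ * r ^ 2) = 2 / 3 * (D₁ * r) := by
            field_simp
            ring
          rw [this]
          have : 0 ≤ D₁ * r := by positivity
          linarith
  -- C
  have hclC : ∀ n n' : ℤ, volume (R ∩ Q ∩ {y | pr s y ∈ I n ∧ pr s' y ∈ I n'}) ≤
      ENNReal.ofReal (D₁ * r / β) * volume (Fa ∩ I n) := by
    intro n n'
    rcases (R ∩ Q ∩ {y | pr s y ∈ I n ∧ pr s' y ∈ I n'}).eq_empty_or_nonempty with h |
      ⟨x, hxRQ, hx1, hx2⟩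
    · rw [h, measure_empty]
      exact zero_le
    calc volume (R ∩ Q ∩ {y | pr s y ∈ I n ∧ pr s' y ∈ I n'})
        ≤ volume {y : Pl | pr s y ∈ Fa ∩ I n ∧ pr s' y ∈ Fb ∩ I n'} := by
          refine measure_mono ?_
          rintro y ⟨⟨hyR, hyQ⟩, hy1, hy2⟩
          have h1 := hQW y hyQ
          have hyW : y ∈ W := by
            show |y 0 - c 0| < L
            linarith [h1.1]
          refine ⟨⟨⟨⟨y, ⟨(hR hyR).1, hyW⟩, rfl⟩, ?_⟩, hy1⟩, ⟨y, ⟨(hR hyR).2, hyW⟩, rfl⟩, hy2⟩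
          have h2 : |pr s y - pr s c| ≤ L := by
            have e : pr s y - pr s c = (y 1 - c 1) - s * (y 0 - c 0) := by
              unfold pr; ring
            rw [e]
            have h3 : |s * (y 0 - c 0)| ≤ L / 2 := by
              rw [abs_mul]
              calc |s| * |y 0 - c 0| ≤ 1 * (L / 2) :=
                    mul_le_mul hs h1.1 (abs_nonneg _) zero_le_one
                _ = L / 2 := one_mul _
            have h4 := abs_sub (y 1 - c 1) (s * (y 0 - c 0))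
            linarith [h1.2]
          rw [abs_le] at h2
          rw [mem_Icc]
          constructor <;> linarith [h2.1, h2.2]
      _ = volume (Fa ∩ I n) * volume (Fb ∩ I n') * ENNReal.ofReal (1 / β) :=
          hPAR s s' _ _ hne (hFam.inter (hIm n)) (hFbm.inter (hIm n'))
      _ ≤ volume (Fa ∩ I n) * ENNReal.ofReal (D₁ * r) * ENNReal.ofReal (1 / β) := by
          gcongr
          exact hclB n' x hxRQ hx2
      _ = ENNReal.ofReal (D₁ * r / β) * volume (Fa ∩ I n) := by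
          rw [mul_assoc, ← ENNReal.ofReal_mul (by positivity), mul_comm]
          congr 2
          ring
  -- D
  have hclD : ∀ n : ℤ, volume (R ∩ Q ∩ {y | pr s y ∈ I n}) ≤
      ENNReal.ofReal (5 * D₁ * L) * volume (Fa ∩ I n) := by
    intro n
    set lo' : ℝ := (n : ℝ) * ρ - (s' - s) * c 0 - β * L / 2 with hlo
    set hi' : ℝ := ((n : ℝ) + 1) * ρ - (s' - s) * c 0 + β * L / 2 with hhi
    have hcov : R ∩ Q ∩ {y | pr s y ∈ I n} ⊆ ⋃ n' ∈ Finset.Icc ⌊lo' / ρ⌋ ⌊hi' / ρ⌋,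
        (R ∩ Q ∩ {y | pr s y ∈ I n ∧ pr s' y ∈ I n'}) := by
      rintro y ⟨hyRQ, hyI⟩
      have h1 := (hQW y hyRQ.2).1
      have hyI' : pr s y ∈ Ico ((n : ℝ) * ρ) (((n : ℝ) + 1) * ρ) := hyI
      have e : pr s' y = pr s y - (s' - s) * c 0 - (s' - s) * (y 0 - c 0) := by
        unfold pr; ring
      have h2 : |(s' - s) * (y 0 - c 0)| ≤ β * L / 2 := by
        rw [abs_mul, abs_sub_comm s' s, ← hβ, mul_div_assoc]
        exact mul_le_mul_of_nonneg_left h1 hβ0.le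
      rw [abs_le] at h2
      rw [mem_iUnion₂]
      refine ⟨⌊pr s' y / ρ⌋, ?_, hyRQ, hyI, (grid_mem hρ0 _ _).mpr rfl⟩
      rw [Finset.mem_Icc]
      constructor
      · apply Int.floor_le_floor
        gcongr
        rw [e, hlo]
        linarith [hyI'.1, h2.2]
      · apply Int.floor_le_floor
        gcongr
        rw [e, hhi]
        linarith [hyI'.2, h2.1]
    have hcard : ((Finset.Icc ⌊lo' / ρ⌋ ⌊hi' / ρ⌋).card : ℝ) ≤ 4 * β * L / r + 3 := by
      rw [Int.card_Icc]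
      have h1 : (⌊hi' / ρ⌋ : ℝ) ≤ hi' / ρ := Int.floor_le _
      have h2 : lo' / ρ < ⌊lo' / ρ⌋ + 1 := Int.lt_floor_add_one _
      have h3 : hi' / ρ - lo' / ρ = 1 + 4 * β * L / r := by
        rw [hhi, hlo, hρ]
        field_simp
        ring
      have h5 : ((⌊hi' / ρ⌋ + 1 - ⌊lo' / ρ⌋).toNat : ℤ) = max (⌊hi' / ρ⌋ + 1 - ⌊lo' / ρ⌋) 0 :=
        Int.toNat_eq_max _
      have h6 : (((⌊hi' / ρ⌋ + 1 - ⌊lo' / ρ⌋).toNat : ℕ) : ℝ) =
          ((max (⌊hi' / ρ⌋ + 1 - ⌊lo' / ρ⌋) 0 : ℤ) : ℝ) := by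
        rw [← h5]
        push_cast
        rfl
      rw [h6]
      push_cast
      apply max_le
      · linarith
      · positivity
    calc volume (R ∩ Q ∩ {y | pr s y ∈ I n})
        ≤ volume (⋃ n' ∈ Finset.Icc ⌊lo' / ρ⌋ ⌊hi' / ρ⌋,
          (R ∩ Q ∩ {y | pr s y ∈ I n ∧ pr s' y ∈ I n'})) := measure_mono hcov
      _ ≤ ∑ n' ∈ Finset.Icc ⌊lo' / ρ⌋ ⌊hi' / ρ⌋,
          volume (R ∩ Q ∩ {y | pr s y ∈ I n ∧ pr s' y ∈ I n'}) :=
          measure_biUnion_finset_le _ _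
      _ ≤ ∑ n' ∈ Finset.Icc ⌊lo' / ρ⌋ ⌊hi' / ρ⌋,
          ENNReal.ofReal (D₁ * r / β) * volume (Fa ∩ I n) :=
          Finset.sum_le_sum fun n' _ => hclC n n'
      _ = ENNReal.ofReal (((Finset.Icc ⌊lo' / ρ⌋ ⌊hi' / ρ⌋).card : ℝ) * (D₁ * r / β)) *
          volume (Fa ∩ I n) := by
          rw [Finset.sum_const, nsmul_eq_mul, ← mul_assoc, ENNReal.ofReal_mul (by positivity),
            ENNReal.ofReal_natCast]
      _ ≤ ENNReal.ofReal (5 * D₁ * L) * volume (Fa ∩ I n) := by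
          refine mul_le_mul' (ENNReal.ofReal_le_ofReal ?_) le_rfl
          calc ((Finset.Icc ⌊lo' / ρ⌋ ⌊hi' / ρ⌋).card : ℝ) * (D₁ * r / β)
              ≤ (4 * β * L / r + 3) * (D₁ * r / β) := by
                gcongr
            _ = 4 * D₁ * L + 3 * D₁ * (r / β) := by
                field_simp
            _ ≤ 5 * D₁ * L := by
                have h7 : r / β ≤ L / 100 := by
                  rw [div_le_iff₀ hβ0]
                  have : α * L ≤ β * L := mul_le_mul_of_nonneg_right hαs hL.le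
                  linarith
                have h8 : 3 * D₁ * (r / β) ≤ 3 * D₁ * (L / 100) :=
                  mul_le_mul_of_nonneg_left h7 (by positivity)
                have h9 : 0 ≤ D₁ * L := by positivity
                linarith
  have hdisj : Pairwise (Function.onFun Disjoint I) := by
    intro n m hnm
    rw [Function.onFun, Set.disjoint_left]
    intro t h1 h2
    exact hnm (((grid_mem hρ0 t n).mp h1).symm.trans ((grid_mem hρ0 t m).mp h2))
  have hsumI : ∑' n : ℤ, volume (Fa ∩ I n) ≤ volume Fa := by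
    have h3 : ∀ n, volume (Fa ∩ I n) = (volume.restrict Fa) (I n) := by
      intro n
      rw [Measure.restrict_apply (hIm n), inter_comm]
    simp_rw [h3]
    rw [← measure_iUnion hdisj hIm]
    refine (measure_mono (subset_univ _)).trans ?_
    rw [Measure.restrict_apply_univ]
  calc volume (R ∩ Q) ≤ volume (⋃ n : ℤ, R ∩ Q ∩ {y | pr s y ∈ I n}) := by
        refine measure_mono fun y hy => ?_
        exact mem_iUnion.mpr ⟨⌊pr s y / ρ⌋, hy, (grid_mem hρ0 _ _).mpr rfl⟩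
    _ ≤ ∑' n : ℤ, volume (R ∩ Q ∩ {y | pr s y ∈ I n}) := measure_iUnion_le _
    _ ≤ ∑' n : ℤ, ENNReal.ofReal (5 * D₁ * L) * volume (Fa ∩ I n) :=
        ENNReal.tsum_le_tsum hclD
    _ = ENNReal.ofReal (5 * D₁ * L) * ∑' n : ℤ, volume (Fa ∩ I n) := ENNReal.tsum_mul_left
    _ ≤ ENNReal.ofReal (5 * D₁ * L) * volume Fa := by gcongr
    _ = ENNReal.ofReal (5 / 8 * D₁) * (ENNReal.ofReal (8 * L) * volume Fa) := by
        rw [← mul_assoc, ← ENNReal.ofReal_mul (by positivity)]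
        congr 2
        ring
    _ ≤ ENNReal.ofReal (5 / 8 * D₁) * volume (Ra ∩ Sq c (5 * L)) := by gcongr

theorem hPPW (hPT : StPT) (hRID : StRID) (hPAR : StPAR) : StPPW := by
  refine ⟨76, by norm_num, ?_⟩
  intro s s' α r L D₁ Ea Eb Ra Rb R hs hs' hα hαs hr hrL hD hEa hEb hRa hRb hA hB hR hden
  have hL : 0 < L := by
    by_contra h
    push Not at h
    nlinarith
  let P : ℤ × ℤ → Set Pl := fun z => {y | y 0 ∈ Ico ((z.1 : ℝ) * L) (((z.1 : ℝ) + 1) * L) ∧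
    y 1 ∈ Ico ((z.2 : ℝ) * L) (((z.2 : ℝ) + 1) * L)}
  have hPm : ∀ z, MeasurableSet (P z) := fun z =>
    MeasurableSet.inter ((co_cont 0).measurable measurableSet_Ico)
      ((co_cont 1).measurable measurableSet_Ico)
  have hPmem : ∀ y z, y ∈ P z ↔ (⌊y 0 / L⌋, ⌊y 1 / L⌋) = z := by
    intro y z
    show (_ ∧ _) ↔ _
    rw [grid_mem hL, grid_mem hL, Prod.ext_iff]
  have hPd : Pairwise (Function.onFun Disjoint P) := by
    intro z w hzw
    rw [Function.onFun, Set.disjoint_left]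
    intro y h1 h2
    rw [hPmem] at h1 h2
    exact hzw (h1.symm.trans h2)
  let c : ℤ × ℤ → Pl := fun z => pt (((z.1 : ℝ) + 1 / 2) * L) (((z.2 : ℝ) + 1 / 2) * L)
  have hc0 : ∀ z, (c z) 0 = ((z.1 : ℝ) + 1 / 2) * L := fun z => (hPT.1 _ _).1
  have hc1 : ∀ z, (c z) 1 = ((z.2 : ℝ) + 1 / 2) * L := fun z => (hPT.1 _ _).2
  have hPQ : ∀ z, P z ⊆ Sq (c z) (L / 2) := by
    rintro z y ⟨h1, h2⟩
    refine ⟨?_, ?_⟩
    · rw [hc0, abs_le]
      constructor <;> linarith [h1.1, h1.2]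
    · rw [hc1, abs_le]
      constructor <;> linarith [h2.1, h2.2]
  set S : Finset (ℤ × ℤ) := Finset.Icc (-5) 5 ×ˢ Finset.Icc (-5) 5 with hS
  have hScard : S.card = 121 := by rw [hS]; rfl
  have hloc : ∀ z, volume (R ∩ P z) ≤
      ENNReal.ofReal (5 / 8 * D₁) * ∑ i ∈ S, volume (Ra ∩ P (z + i)) := by
    intro z
    refine (win_loc hPT hRID hPAR hs hs' hα hαs hr hrL hD hEa hEb hA hB hR hden (c z) (P z)
      (hPQ z)).trans ?_
    gcongr
    refine le_trans (measure_mono ?_) (measure_biUnion_finset_le S fun i => Ra ∩ P (z + i))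
    rintro y ⟨hyR, hy0, hy1⟩
    rw [hc0, abs_le] at hy0
    rw [hc1, abs_le] at hy1
    rw [mem_iUnion₂]
    refine ⟨(⌊y 0 / L⌋ - z.1, ⌊y 1 / L⌋ - z.2), ?_, hyR, ?_⟩
    · rw [hS, Finset.mem_product, Finset.mem_Icc, Finset.mem_Icc]
      have a1 : z.1 - 5 ≤ ⌊y 0 / L⌋ := by
        rw [Int.le_floor, le_div_iff₀ hL]
        push_cast
        linarith [hy0.1]
      have a2 : ⌊y 0 / L⌋ < z.1 + 6 := by
        rw [Int.floor_lt, div_lt_iff₀ hL]
        push_cast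
        linarith [hy0.2]
      have b1 : z.2 - 5 ≤ ⌊y 1 / L⌋ := by
        rw [Int.le_floor, le_div_iff₀ hL]
        push_cast
        linarith [hy1.1]
      have b2 : ⌊y 1 / L⌋ < z.2 + 6 := by
        rw [Int.floor_lt, div_lt_iff₀ hL]
        push_cast
        linarith [hy1.2]
      refine ⟨⟨?_, ?_⟩, ?_, ?_⟩
      · show (-5 : ℤ) ≤ ⌊y 0 / L⌋ - z.1
        omega
      · show ⌊y 0 / L⌋ - z.1 ≤ 5
        omega
      · show (-5 : ℤ) ≤ ⌊y 1 / L⌋ - z.2
        omega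
      · show ⌊y 1 / L⌋ - z.2 ≤ 5
        omega
    · rw [hPmem]
      ext
      · simp
      · simp
  calc volume R ≤ volume (⋃ z, R ∩ P z) := by
        refine measure_mono fun y hy => ?_
        exact mem_iUnion.mpr ⟨_, hy, (hPmem y _).mpr rfl⟩
    _ ≤ ∑' z, volume (R ∩ P z) := measure_iUnion_le _
    _ ≤ ∑' z, ENNReal.ofReal (5 / 8 * D₁) * ∑ i ∈ S, volume (Ra ∩ P (z + i)) :=
        ENNReal.tsum_le_tsum hloc
    _ = ENNReal.ofReal (5 / 8 * D₁) * ∑' z, ∑ i ∈ S, volume (Ra ∩ P (z + i)) :=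
        ENNReal.tsum_mul_left
    _ ≤ ENNReal.ofReal (5 / 8 * D₁) * ((S.card : ℝ≥0∞) * volume Ra) := by
        gcongr
        exact shift_sum P hPm hPd Ra S
    _ = ENNReal.ofReal (5 / 8 * D₁ * 121) * volume Ra := by
        rw [hScard, ← mul_assoc, ENNReal.ofReal_mul (p := 5 / 8 * D₁) (by positivity),
          ENNReal.ofReal_ofNat]
        rfl
    _ ≤ ENNReal.ofReal (76 * D₁) * volume Ra := by
        refine mul_le_mul' (ENNReal.ofReal_le_ofReal ?_) le_rfl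
        linarith

end Pool.Agent.Helper33.EQ
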