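import Pool.Agent.Helper33.EQ.Com

/-!
# Project EQ (MP_cb927e_an), module PRD: product formula in parallelograms
-/

set_option autoImplicit false

open MeasureTheory Set Filter Topology
open scoped ENNReal

namespace Pool.Agent.Helper33.EQ

open Pool.Agent.Helper20.RG Pool.Agent.Helper20.EQ
open Pool.Agent.Helper68.LM (Pl BB Bd Av HL ft fm DQ)

theorem hPRD (hPT : StPT) (hPAR : StPAR) : StPRD := by
  intro s s' δ D Ea Eb Ra Rb R _ _ hne hδ hD hEa hEb hRa hRb hA hB hR hden
  set α := |s - s'| with hα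
  have hα0 : 0 < α := abs_pos.mpr (sub_ne_zero.mpr hne)
  let P : ℤ × ℤ → Set Pl := fun z => {y | pr s y ∈ Ico ((z.1 : ℝ) * δ) (((z.1 : ℝ) + 1) * δ) ∧
    pr s' y ∈ Ico ((z.2 : ℝ) * δ) (((z.2 : ℝ) + 1) * δ)}
  have hPm : ∀ z, MeasurableSet (P z) := fun z =>
    MeasurableSet.inter ((pr_cont s).measurable measurableSet_Ico)
      ((pr_cont s').measurable measurableSet_Ico)
  have hfl : ∀ (t : ℝ) (n : ℤ), t ∈ Ico ((n : ℝ) * δ) (((n : ℝ) + 1) * δ) ↔ ⌊t / δ⌋ = n := by
    intro t n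
    rw [Int.floor_eq_iff, mem_Ico, le_div_iff₀ hδ, div_lt_iff₀ hδ]
  have hPmem : ∀ y z, y ∈ P z ↔ (⌊pr s y / δ⌋, ⌊pr s' y / δ⌋) = z := by
    intro y z
    show (_ ∧ _) ↔ _
    rw [hfl, hfl, Prod.ext_iff]
  have hPd : Pairwise (Function.onFun Disjoint P) := by
    intro z w hzw
    rw [Function.onFun, Set.disjoint_left]
    intro y h1 h2
    rw [hPmem] at h1 h2
    exact hzw (h1.symm.trans h2)
  set S : Finset (ℤ × ℤ) := Finset.Icc (-2) 2 ×ˢ {0} with hS
  have hScard : S.card = 5 := by rw [hS]; rfl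
  have hloc : ∀ z, volume (R ∩ P z) ≤
      ENNReal.ofReal (D / 16) * ∑ i ∈ S, volume (Rb ∩ P (z + i)) := by
    intro z
    rcases (R ∩ P z).eq_empty_or_nonempty with h | ⟨x, hxR, hxP⟩
    · rw [h, measure_empty]
      exact zero_le
    have hkey : ∀ y : Pl, (s' - s) * (y 0 - x 0) =
        (pr s y - pr s x) - (pr s' y - pr s' x) := by
      intro y
      unfold pr
      ring
    have habs : ∀ y : Pl, |(s' - s) * (y 0 - x 0)| = α * |y 0 - x 0| := by
      intro y
      rw [abs_mul, abs_sub_comm s' s]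
    have hxP' := hxP
    obtain ⟨hx1, hx2⟩ := hxP'
    have hnear : ∀ y ∈ P z, |y 0 - x 0| < 2 * δ / α := by
      rintro y ⟨hy1, hy2⟩
      have h3 : |(s' - s) * (y 0 - x 0)| < 2 * δ := by
        rw [hkey, abs_lt]
        constructor <;> linarith [hx1.1, hx1.2, hx2.1, hx2.2, hy1.1, hy1.2, hy2.1, hy2.2]
      rw [habs] at h3
      rw [lt_div_iff₀ hα0]
      linarith
    set W : Set Pl := {y | |y 0 - x 0| < 2 * δ / α} with hW
    have hWo : IsOpen W := isOpen_lt (continuous_abs.comp ((co_cont 0).sub continuous_const))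
      continuous_const
    set Ta : Set ℝ := pr s '' (Ea ∩ W) ∩ Ico ((z.1 : ℝ) * δ) (((z.1 : ℝ) + 1) * δ) with hTa
    set Tb : Set ℝ := pr s' '' (Eb ∩ W) ∩ Ico ((z.2 : ℝ) * δ) (((z.2 : ℝ) + 1) * δ) with hTb
    have hTam : MeasurableSet Ta :=
      (pr_open hPT s (hEa.inter hWo)).measurableSet.inter measurableSet_Ico
    have hTbm : MeasurableSet Tb :=
      (pr_open hPT s' (hEb.inter hWo)).measurableSet.inter measurableSet_Ico
    have h1 : ENNReal.ofReal (2 * (4 * δ / α)) * volume Ta ≤ ENNReal.ofReal (D * δ ^ 2 / α) := by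
      rw [← strip_vol hPT s (x 0) _ Ta hTam]
      refine le_trans (measure_mono ?_) (hden x hxR)
      rintro y ⟨hy1, ⟨y₀, ⟨hy₀E, hy₀W⟩, hy₀⟩, hyI⟩
      refine ⟨?_, hy1, ?_⟩
      · rw [pr_shift hPT hy₀.symm]
        refine hA y₀ hy₀E _ ?_
        have h4 : |y 0 - y₀ 0| ≤ |y 0 - x 0| + |y₀ 0 - x 0| := by
          have := abs_sub_le (y 0) (x 0) (y₀ 0)
          rwa [abs_sub_comm (x 0) (y₀ 0)] at this
        have h5 : |y₀ 0 - x 0| < 2 * δ / α := hy₀W
        have h6 : 8 * δ / α = 4 * δ / α + 2 * δ / α + 2 * δ / α := by ring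
        have h7 : 0 < 2 * δ / α := by positivity
        linarith
      · rw [pr_sub, abs_le]
        constructor <;> linarith [hx1.1, hx1.2, hyI.1, hyI.2]
    have h2 : ENNReal.ofReal (2 * (δ / α)) * volume Tb ≤ ∑ i ∈ S, volume (Rb ∩ P (z + i)) := by
      rw [← strip_vol hPT s' (x 0) _ Tb hTbm]
      refine le_trans (measure_mono ?_) (measure_biUnion_finset_le S fun i => Rb ∩ P (z + i))
      rintro y ⟨hy1, ⟨y₀, ⟨hy₀E, hy₀W⟩, hy₀⟩, hyI⟩
      have hyRb : y ∈ Rb := by
        rw [pr_shift hPT hy₀.symm]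
        refine hB y₀ hy₀E _ ?_
        have h4 : |y 0 - y₀ 0| ≤ |y 0 - x 0| + |y₀ 0 - x 0| := by
          have := abs_sub_le (y 0) (x 0) (y₀ 0)
          rwa [abs_sub_comm (x 0) (y₀ 0)] at this
        have h5 : |y₀ 0 - x 0| < 2 * δ / α := hy₀W
        have h6 : 8 * δ / α = 8 * (δ / α) := by ring
        have h6' : 2 * δ / α = 2 * (δ / α) := by ring
        have h7 : 0 < δ / α := by positivity
        linarith
      have h8 : α * |y 0 - x 0| ≤ δ := by
        rw [← le_div_iff₀' hα0]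
        exact hy1
      rw [← habs, hkey, abs_le] at h8
      rw [mem_iUnion₂]
      refine ⟨(⌊pr s y / δ⌋ - z.1, 0), ?_, hyRb, ?_⟩
      · rw [hS, Finset.mem_product, Finset.mem_Icc, Finset.mem_singleton]
        refine ⟨⟨?_, ?_⟩, rfl⟩
        · have h9 : z.1 - 2 ≤ ⌊pr s y / δ⌋ := by
            rw [Int.le_floor, le_div_iff₀ hδ]
            push_cast
            linarith [hx1.1, hx1.2, hx2.1, hx2.2, hyI.1, hyI.2, h8.1, h8.2]
          show (-2 : ℤ) ≤ ⌊pr s y / δ⌋ - z.1
          omega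
        · have h9 : ⌊pr s y / δ⌋ < z.1 + 3 := by
            rw [Int.floor_lt, div_lt_iff₀ hδ]
            push_cast
            linarith [hx1.1, hx1.2, hx2.1, hx2.2, hyI.1, hyI.2, h8.1, h8.2]
          show ⌊pr s y / δ⌋ - z.1 ≤ 2
          omega
      · rw [hPmem, (hfl _ _).mp hyI]
        ext
        · simp
        · simp
    have h3 : volume (R ∩ P z) ≤ volume Ta * volume Tb * ENNReal.ofReal (1 / α) := by
      rw [← hPAR s s' Ta Tb hne hTam hTbm]
      refine measure_mono ?_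
      rintro y ⟨hyR, hyP⟩
      have hyW : y ∈ W := hnear y hyP
      exact ⟨⟨⟨y, ⟨(hR hyR).1, hyW⟩, rfl⟩, hyP.1⟩, ⟨⟨y, ⟨(hR hyR).2, hyW⟩, rfl⟩, hyP.2⟩⟩
    have h4 : volume Ta ≤ ENNReal.ofReal (D * δ / 8) := by
      calc volume Ta = ENNReal.ofReal (α / (8 * δ)) * (ENNReal.ofReal (2 * (4 * δ / α)) *
            volume Ta) := by
            rw [← mul_assoc, ← ENNReal.ofReal_mul (by positivity)]
            have : α / (8 * δ) * (2 * (4 * δ / α)) = 1 := by
              field_simp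
              norm_num
            rw [this, ENNReal.ofReal_one, one_mul]
        _ ≤ ENNReal.ofReal (α / (8 * δ)) * ENNReal.ofReal (D * δ ^ 2 / α) := by gcongr
        _ = ENNReal.ofReal (D * δ / 8) := by
            rw [← ENNReal.ofReal_mul (by positivity)]
            congr 1
            field_simp
    have h5 : volume Tb ≤ ENNReal.ofReal (α / (2 * δ)) * ∑ i ∈ S, volume (Rb ∩ P (z + i)) := by
      calc volume Tb = ENNReal.ofReal (α / (2 * δ)) * (ENNReal.ofReal (2 * (δ / α)) *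
            volume Tb) := by
            rw [← mul_assoc, ← ENNReal.ofReal_mul (by positivity)]
            have : α / (2 * δ) * (2 * (δ / α)) = 1 := by
              field_simp
            rw [this, ENNReal.ofReal_one, one_mul]
        _ ≤ _ := by gcongr
    calc volume (R ∩ P z) ≤ volume Ta * volume Tb * ENNReal.ofReal (1 / α) := h3
      _ ≤ ENNReal.ofReal (D * δ / 8) * (ENNReal.ofReal (α / (2 * δ)) *
          ∑ i ∈ S, volume (Rb ∩ P (z + i))) * ENNReal.ofReal (1 / α) := by gcongr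
      _ = (ENNReal.ofReal (D * δ / 8) * ENNReal.ofReal (α / (2 * δ)) * ENNReal.ofReal (1 / α)) *
          ∑ i ∈ S, volume (Rb ∩ P (z + i)) := by ring
      _ = ENNReal.ofReal (D / 16) * ∑ i ∈ S, volume (Rb ∩ P (z + i)) := by
          rw [← ENNReal.ofReal_mul (by positivity), ← ENNReal.ofReal_mul (by positivity)]
          congr 2
          field_simp
          ring
  calc volume R ≤ volume (⋃ z, R ∩ P z) := by
        refine measure_mono fun y hy => ?_
        exact mem_iUnion.mpr ⟨_, hy, (hPmem y _).mpr rfl⟩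
    _ ≤ ∑' z, volume (R ∩ P z) := measure_iUnion_le _
    _ ≤ ∑' z, ENNReal.ofReal (D / 16) * ∑ i ∈ S, volume (Rb ∩ P (z + i)) :=
        ENNReal.tsum_le_tsum hloc
    _ = ENNReal.ofReal (D / 16) * ∑' z, ∑ i ∈ S, volume (Rb ∩ P (z + i)) := ENNReal.tsum_mul_left
    _ ≤ ENNReal.ofReal (D / 16) * ((S.card : ℝ≥0∞) * volume Rb) := by
        gcongr
        exact shift_sum P hPm hPd Rb S
    _ = ENNReal.ofReal (D / 16 * 5) * volume Rb := by
        rw [hScard, ← mul_assoc, ENNReal.ofReal_mul (by positivity)]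
        norm_num
    _ ≤ ENNReal.ofReal D * volume Rb := by
        gcongr
        linarith

end Pool.Agent.Helper33.EQ
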