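import Pool.Agent.Helper20.EQ.St2

/-!
# Project EQ (MP_cb927e_an): common lemmas for the modules PRD, PPW
-/

set_option autoImplicit false

open MeasureTheory Set Filter Topology
open scoped ENNReal

namespace Pool.Agent.Helper33.EQ

open Pool.Agent.Helper20.RG Pool.Agent.Helper20.EQ
open Pool.Agent.Helper68.LM (Pl BB Bd Av HL ft fm DQ)

theorem E_zero (hPT : StPT) (s : ℝ) : (E s) 0 = 1 := (hPT.1 1 s).1

theorem E_one (hPT : StPT) (s : ℝ) : (E s) 1 = s := (hPT.1 1 s).2

theorem pl_ext {x y : Pl} (h0 : x 0 = y 0) (h1 : x 1 = y 1) : x = y := by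
  ext i
  fin_cases i
  · exact h0
  · exact h1

theorem pr_shift (hPT : StPT) {s : ℝ} {y y₀ : Pl} (h : pr s y = pr s y₀) :
    y = y₀ + (y 0 - y₀ 0) • E s := by
  unfold pr at h
  apply pl_ext
  · rw [PiLp.add_apply, PiLp.smul_apply, E_zero hPT]
    simp
  · rw [PiLp.add_apply, PiLp.smul_apply, E_one hPT, smul_eq_mul]
    linarith

theorem pr_sub (s : ℝ) (x y : Pl) : pr s (x - y) = pr s x - pr s y := by
  unfold pr
  rw [PiLp.sub_apply, PiLp.sub_apply]
  ring

theorem pr_add_E (hPT : StPT) (s : ℝ) (x : Pl) (t : ℝ) : pr s (x + t • E s) = pr s x := by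
  unfold pr
  rw [PiLp.add_apply, PiLp.smul_apply, PiLp.add_apply, PiLp.smul_apply, E_zero hPT, E_one hPT]
  simp only [smul_eq_mul]
  ring

theorem pr_cont (s : ℝ) : Continuous (pr s) := by
  unfold pr
  fun_prop

theorem co_cont (i : Fin 2) : Continuous fun y : Pl => y i := by fun_prop

theorem pr_open (hPT : StPT) (s : ℝ) {U : Set Pl} (hU : IsOpen U) : IsOpen (pr s '' U) := by
  have h0 : (pt 0 1) 0 = 0 := (hPT.1 0 1).1
  have h1 : (pt 0 1) 1 = 1 := (hPT.1 0 1).2
  have e : pr s '' U = ⋃ y ∈ U, (fun t : ℝ => y + (t - pr s y) • pt 0 1) ⁻¹' U := by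
    ext t
    simp only [mem_image, mem_iUnion, mem_preimage, exists_prop]
    constructor
    · rintro ⟨y, hy, rfl⟩
      refine ⟨y, hy, ?_⟩
      rw [sub_self, zero_smul, add_zero]
      exact hy
    · rintro ⟨y, hy, h⟩
      refine ⟨_, h, ?_⟩
      unfold pr
      rw [PiLp.add_apply, PiLp.smul_apply, PiLp.add_apply, PiLp.smul_apply, h0, h1]
      simp only [smul_eq_mul]
      ring
  rw [e]
  refine isOpen_biUnion fun y _ => hU.preimage ?_
  fun_prop

/-- measure of a strip -/
theorem strip_vol (hPT : StPT) (s x0 h : ℝ) (T : Set ℝ) (hT : MeasurableSet T) :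
    volume {y : Pl | |y 0 - x0| ≤ h ∧ pr s y ∈ T} = ENNReal.ofReal (2 * h) * volume T := by
  have hm : MeasurableSet {y : Pl | |y 0 - x0| ≤ h ∧ pr s y ∈ T} := by
    refine MeasurableSet.inter ?_ ((pr_cont s).measurable hT)
    exact (isClosed_le (continuous_abs.comp ((co_cont 0).sub continuous_const))
      continuous_const).measurableSet
  rw [← lintegral_indicator_one hm, hPT.2.2.2.2.2.1 _ (measurable_one.indicator hm)]
  have h1 : ∀ a : ℝ, ∫⁻ b : ℝ, {y : Pl | |y 0 - x0| ≤ h ∧ pr s y ∈ T}.indicator 1 (pt a b) =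
      (Icc (x0 - h) (x0 + h)).indicator (fun _ => volume T) a := by
    intro a
    have h2 : ∀ b : ℝ, {y : Pl | |y 0 - x0| ≤ h ∧ pr s y ∈ T}.indicator (1 : Pl → ℝ≥0∞) (pt a b) =
        (Icc (x0 - h) (x0 + h)).indicator (fun _ => T.indicator 1 (b - s * a)) a := by
      intro b
      have e1 : pr s (pt a b) = b - s * a := by
        unfold pr
        rw [(hPT.1 a b).1, (hPT.1 a b).2]
      have e2 : |a - x0| ≤ h ↔ a ∈ Icc (x0 - h) (x0 + h) := by
        rw [abs_le, mem_Icc]
        constructor <;> rintro ⟨h3, h4⟩ <;> constructor <;> linarith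
      by_cases ha : a ∈ Icc (x0 - h) (x0 + h)
      · rw [indicator_of_mem ha]
        by_cases hb : b - s * a ∈ T
        · rw [indicator_of_mem hb, indicator_of_mem]
          · rfl
          · refine ⟨?_, ?_⟩
            · rw [(hPT.1 a b).1]; exact e2.mpr ha
            · rw [e1]; exact hb
        · rw [indicator_of_notMem hb, indicator_of_notMem]
          rintro ⟨-, h3⟩
          rw [e1] at h3
          exact hb h3
      · rw [indicator_of_notMem ha, indicator_of_notMem]
        rintro ⟨h3, -⟩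
        rw [(hPT.1 a b).1] at h3
        exact ha (e2.mp h3)
    simp_rw [h2]
    by_cases ha : a ∈ Icc (x0 - h) (x0 + h)
    · simp only [indicator_of_mem ha]
      rw [lintegral_sub_right_eq_self (fun b : ℝ => T.indicator (1 : ℝ → ℝ≥0∞) b) (s * a),
        lintegral_indicator_one hT]
    · simp only [indicator_of_notMem ha, lintegral_zero]
  simp_rw [h1]
  rw [lintegral_indicator measurableSet_Icc, setLIntegral_const, Real.volume_Icc, mul_comm]
  congr 2
  ring

/-- sum over shifts of a disjoint family -/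
theorem shift_sum (P : ℤ × ℤ → Set Pl) (hP : ∀ z, MeasurableSet (P z))
    (hd : Pairwise (Function.onFun Disjoint P)) (B : Set Pl) (S : Finset (ℤ × ℤ)) :
    ∑' z, ∑ i ∈ S, volume (B ∩ P (z + i)) ≤ (S.card : ℝ≥0∞) * volume B := by
  rw [Summable.tsum_finsetSum fun i _ => ENNReal.summable]
  have h1 : ∀ i ∈ S, ∑' z, volume (B ∩ P (z + i)) ≤ volume B := by
    intro i _
    have h2 : ∑' z, volume (B ∩ P (z + i)) = ∑' z, volume (B ∩ P z) :=
      (Equiv.addRight i).tsum_eq fun z => volume (B ∩ P z)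
    rw [h2]
    have h3 : ∀ z, volume (B ∩ P z) = (volume.restrict B) (P z) := by
      intro z
      rw [Measure.restrict_apply (hP z), inter_comm]
    simp_rw [h3]
    rw [← measure_iUnion hd hP]
    refine (measure_mono (subset_univ _)).trans ?_
    rw [Measure.restrict_apply_univ]
  refine (Finset.sum_le_sum h1).trans ?_
  rw [Finset.sum_const, nsmul_eq_mul]

end Pool.Agent.Helper33.EQ
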